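import Mathlib

/-!
The set-splitting game `G(E)`.
-/

namespace Q309.Split

open Set

/-- A move: the set `cur` that the mover has picked, and the two pieces of its splitting. -/
structure Move (E : Type) where
  /-- the current set, picked by the mover -/
  cur : Set E
  /-- the first piece -/
  left : Set E
  /-- the second piece -/
  right : Set E

variable {E : Type}

/-- the two pieces are disjoint and their union is the current set -/
def Move.Splits (m : Move E) : Prop := Disjoint m.left m.right ∧ m.left ∪ m.right = m.cur

/-- Legality of the move `m` after the finite history `h`: the first move splits the whole set `E`,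
a later move picks one of the two pieces of the previous move and splits it. -/
def LegalAfter (h : List (Move E)) (m : Move E) : Prop :=
  m.Splits ∧ match h.getLast? with
    | none => m.cur = univ
    | some m0 => m.cur = m0.left ∨ m.cur = m0.right

/-- the history of the first `n` moves of a play -/
def hist (p : ℕ → Move E) (n : ℕ) : List (Move E) := (List.range n).map p

/-- every move of the play is legal -/
def LegalPlay (p : ℕ → Move E) : Prop := ∀ n, LegalAfter (hist p n) (p n)

/-- A legal finite history. -/
def LegalHist (h : List (Move E)) : Prop :=
  ∀ (l : List (Move E)) (m : Move E), l ++ [m] <+: h → LegalAfter l m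

/-- A strategy for the player who makes the moves number `n` with `n % 2 = i`
(`i = 0`: player A, `i = 1`: player B): it gives a legal move after every finite legal history
ending at that player's turn. -/
def IsStrategy (i : ℕ) (s : List (Move E) → Move E) : Prop :=
  ∀ h, LegalHist h → h.length % 2 = i → LegalAfter h (s h)

/-- the play follows the strategy `s` of the player with parity `i` -/
def Follows (i : ℕ) (s : List (Move E) → Move E) (p : ℕ → Move E) : Prop :=
  ∀ n, n % 2 = i → p n = s (hist p n)

/-- Player A has a winning strategy in `G(E)`: the intersection of the chosen sets `X_n`, `n ≥ 1`,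
is empty in every play in which A follows it. -/
def AWins (E : Type) : Prop :=
  ∃ s : List (Move E) → Move E, IsStrategy 0 s ∧
    ∀ p, LegalPlay p → Follows 0 s p → (⋂ n : ℕ, (p (n + 1)).cur) = ∅

/-- Player B has a winning strategy in `G(E)`: the intersection of the chosen sets `X_n`, `n ≥ 1`,
is nonempty in every play in which B follows it. -/
def BWins (E : Type) : Prop :=
  ∃ s : List (Move E) → Move E, IsStrategy 1 s ∧
    ∀ p, LegalPlay p → Follows 1 s p → (⋂ n : ℕ, (p (n + 1)).cur).Nonempty

theorem hist_succ (p : ℕ → Move E) (n : ℕ) : hist p (n + 1) = hist p n ++ [p n] := by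
  simp [hist, List.range_succ]

theorem hist_length (p : ℕ → Move E) (n : ℕ) : (hist p n).length = n := by
  simp [hist]

theorem getLast_hist_succ (p : ℕ → Move E) (n : ℕ) :
    (hist p (n + 1)).getLast? = some (p n) := by
  rw [hist_succ]; simp

/-- Legality in terms of the moves. -/
theorem legalAfter_succ (p : ℕ → Move E) (n : ℕ) (m : Move E) :
    LegalAfter (hist p (n + 1)) m ↔ m.Splits ∧ (m.cur = (p n).left ∨ m.cur = (p n).right) := by
  unfold LegalAfter
  rw [getLast_hist_succ]

theorem legalAfter_zero (p : ℕ → Move E) (m : Move E) :
    LegalAfter (hist p 0) m ↔ m.Splits ∧ m.cur = univ := by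
  unfold LegalAfter
  simp [hist]

/-- Prefixes of a history. -/
theorem prefix_hist (p : ℕ → Move E) (n : ℕ) (l : List (Move E)) (m : Move E)
    (h : l ++ [m] <+: hist p n) : ∃ k, k < n ∧ l = hist p k ∧ m = p k := by
  induction n with
  | zero =>
    have := h.length_le
    simp [hist] at this
  | succ n ih =>
    rw [hist_succ] at h
    rcases List.prefix_concat_iff.1 h with h1 | h1
    · have := List.append_inj' h1 (by simp)
      exact ⟨n, Nat.lt_succ_self n, this.1, by simpa using this.2⟩
    · obtain ⟨k, hk, h2, h3⟩ := ih h1
      exact ⟨k, Nat.lt_succ_of_lt hk, h2, h3⟩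

/-- If all moves before `n` are legal then the history is legal. -/
theorem legalHist_hist (p : ℕ → Move E) (n : ℕ) (h : ∀ k < n, LegalAfter (hist p k) (p k)) :
    LegalHist (hist p n) := by
  intro l m hl
  obtain ⟨k, hk, h1, h2⟩ := prefix_hist p n l m hl
  rw [h1, h2]
  exact h k hk

/-- Build a play from a rule giving the next move from the history. -/
def build (mv : List (Move E) → Move E) : ℕ → List (Move E)
  | 0 => []
  | n + 1 => build mv n ++ [mv (build mv n)]

/-- the play built from a rule -/
def play (mv : List (Move E) → Move E) (n : ℕ) : Move E := mv (build mv n)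

theorem hist_play (mv : List (Move E) → Move E) (n : ℕ) : hist (play mv) n = build mv n := by
  induction n with
  | zero => rfl
  | succ n ih => rw [hist_succ, ih]; rfl

theorem play_eq (mv : List (Move E) → Move E) (n : ℕ) : play mv n = mv (hist (play mv) n) := by
  rw [hist_play]; rfl

/-- If the rule always gives legal moves the play is legal. -/
theorem legalPlay_of (mv : List (Move E) → Move E)
    (h : ∀ n, LegalHist (hist (play mv) n) → LegalAfter (hist (play mv) n) (play mv n)) :
    LegalPlay (play mv) := by
  intro n
  induction n using Nat.strong_induction_on with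
  | _ n ih => exact h n (legalHist_hist _ n ih)

end Q309.Split
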