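import Mathlib
import Pool.Agent.Q309.Split.Defs

/-!
Player A has no winning strategy in the set-splitting game on an uncountable set.
-/

namespace Q309.Split

open Set

variable {E : Type}

/-- the last move of a history -/
def lastM (h : List (Move E)) : Move E := h.getLast?.getD ⟨univ, ∅, ∅⟩

/-- a piece of a move -/
def pc (b : Bool) (m : Move E) : Set E := if b then m.left else m.right

/-- answer: pick the piece `b` and split it by the set `C` -/
def respond (C : Set E) (b : Bool) (h : List (Move E)) : Move E :=
  ⟨pc b (lastM h), pc b (lastM h) ∩ C, pc b (lastM h) \ C⟩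

theorem lastM_append (h : List (Move E)) (m : Move E) : lastM (h ++ [m]) = m := by
  simp [lastM]

theorem pc_or (b : Bool) (m : Move E) : pc b m = m.left ∨ pc b m = m.right := by
  cases b
  · exact Or.inr rfl
  · exact Or.inl rfl

theorem legalAfter_iff (h : List (Move E)) (hne : h ≠ []) (m : Move E) :
    LegalAfter h m ↔ m.Splits ∧ (m.cur = (lastM h).left ∨ m.cur = (lastM h).right) := by
  unfold LegalAfter lastM
  rw [List.getLast?_eq_some_getLast hne]
  simp

theorem splits_respond (C : Set E) (b : Bool) (h : List (Move E)) : (respond C b h).Splits := by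
  refine ⟨?_, inter_union_sdiff _ _⟩
  rw [Set.disjoint_left]
  rintro x ⟨_, h1⟩ ⟨_, h2⟩
  exact h2 h1

theorem legal_respond (C : Set E) (b : Bool) (h : List (Move E)) (hne : h ≠ []) :
    LegalAfter h (respond C b h) := by
  rw [legalAfter_iff h hne]
  exact ⟨splits_respond C b h, pc_or b _⟩

theorem LegalHist.append {h : List (Move E)} (hh : LegalHist h) {m : Move E}
    (hm : LegalAfter h m) : LegalHist (h ++ [m]) := by
  intro l m' hl
  rcases List.prefix_concat_iff.1 hl with h1 | h1
  · have := List.append_inj' h1 (by simp)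
    obtain ⟨h2, h3⟩ := this
    have h4 : m' = m := by simpa using h3
    rw [h2, h4]
    exact hm
  · exact hh l m' h1

theorem legalHist_nil : LegalHist ([] : List (Move E)) := by
  intro l m h
  have := h.length_le
  simp at this

theorem Move.Splits.mem {m : Move E} (h : m.Splits) {x : E} (hx : x ∈ m.cur) :
    ∃ b, x ∈ pc b m := by
  rw [← h.2] at hx
  rcases hx with h1 | h1
  · exact ⟨true, h1⟩
  · exact ⟨false, h1⟩

theorem Move.Splits.pc_sub {m : Move E} (h : m.Splits) (b : Bool) : pc b m ⊆ m.cur := by
  intro x hx
  rw [← h.2]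
  cases b
  · exact Or.inr hx
  · exact Or.inl hx

/-- the histories in which B answers by finitely many prescribed choices -/
def F (s : List (Move E) → Move E) (C : ℕ → Set E) : List (Bool × ℕ) → List (Move E)
  | [] => [s []]
  | (b, k) :: l =>
    (F s C l ++ [respond (C k) b (F s C l)]) ++ [s (F s C l ++ [respond (C k) b (F s C l)])]

theorem F_legal {s : List (Move E) → Move E} (hs : IsStrategy 0 s) (C : ℕ → Set E)
    (l : List (Bool × ℕ)) :
    LegalHist (F s C l) ∧ (F s C l).length % 2 = 1 ∧ (lastM (F s C l)).Splits ∧ F s C l ≠ [] := by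
  induction l with
  | nil =>
    have h1 : LegalAfter [] (s []) := hs [] legalHist_nil rfl
    refine ⟨?_, rfl, h1.1, by simp [F]⟩
    have := LegalHist.append legalHist_nil h1
    simpa [F] using this
  | cons a l ih =>
    obtain ⟨b, k⟩ := a
    obtain ⟨ih1, ih2, ih3, ih4⟩ := ih
    have h1 := ih1.append (legal_respond (C k) b _ ih4)
    have h2 : (F s C l ++ [respond (C k) b (F s C l)]).length % 2 = 0 := by
      rw [List.length_append]
      simp only [List.length_cons, List.length_nil]
      omega
    have h3 := hs _ h1 h2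
    refine ⟨h1.append h3, ?_, ?_, by simp [F]⟩
    · show ((F s C l ++ [respond (C k) b (F s C l)]) ++
        [s (F s C l ++ [respond (C k) b (F s C l)])]).length % 2 = 1
      rw [List.length_append]
      simp only [List.length_cons, List.length_nil] at h2 ⊢
      omega
    · show (lastM ((F s C l ++ [respond (C k) b (F s C l)]) ++
        [s (F s C l ++ [respond (C k) b (F s C l)])])).Splits
      rw [lastM_append]
      exact h3.1

/-- Every point is given up at some position, whatever set from the list `C` is used. -/
theorem given_up {s : List (Move E) → Move E} (hs : IsStrategy 0 s)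
    (hwin : ∀ p, LegalPlay p → Follows 0 s p → (⋂ n : ℕ, (p (n + 1)).cur) = ∅)
    (C : ℕ → Set E) (x : E) :
    ∃ (l : List (Bool × ℕ)) (b : Bool), x ∈ pc b (lastM (F s C l)) ∧
      ∀ k, x ∉ (lastM (F s C ((b, k) :: l))).cur := by
  by_contra hcon
  push Not at hcon
  -- the states
  let St := {q : List (Bool × ℕ) × Bool // x ∈ pc q.2 (lastM (F s C q.1))}
  have hstart : ∃ b, x ∈ pc b (lastM (F s C [])) := by
    obtain ⟨h1, h2, h3, h4⟩ := F_legal hs C []
    apply h3.mem
    have h5 : LegalAfter [] (s []) := hs [] legalHist_nil rfl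
    have h6 : (s []).cur = univ := by
      have := h5.2
      simpa using this
    show x ∈ (lastM [s []]).cur
    have : lastM [s []] = s [] := rfl
    rw [this, h6]
    exact mem_univ x
  obtain ⟨b0, hb0⟩ := hstart
  have hstep : ∀ q : St, ∃ (k : ℕ) (b' : Bool), x ∈ pc b' (lastM (F s C ((q.1.2, k) :: q.1.1))) := by
    intro q
    obtain ⟨k, hk⟩ := hcon q.1.1 q.1.2 q.2
    obtain ⟨h1, h2, h3, h4⟩ := F_legal hs C ((q.1.2, k) :: q.1.1)
    obtain ⟨b', hb'⟩ := h3.mem hk
    exact ⟨k, b', hb'⟩
  choose kk bb hbb using hstep
  let nxt : St → St := fun q => ⟨((q.1.2, kk q) :: q.1.1, bb q), hbb q⟩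
  let sq : ℕ → St := fun n => Nat.rec ⟨([], b0), hb0⟩ (fun _ q => nxt q) n
  have hsq : ∀ n, sq (n + 1) = nxt (sq n) := fun n => rfl
  let mv : List (Move E) → Move E := fun h =>
    if h.length % 2 = 0 then s h
    else respond (C (kk (sq (h.length / 2)))) (sq (h.length / 2)).1.2 h
  have hlegal : LegalPlay (play mv) := by
    apply legalPlay_of
    intro n hn
    rw [play_eq]
    have hlen := hist_length (play mv) n
    by_cases hpar : n % 2 = 0
    · have : mv (hist (play mv) n) = s (hist (play mv) n) := by
        simp only [mv, hlen, hpar, if_true]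
      rw [this]
      exact hs _ hn (by rw [hlen]; exact hpar)
    · have : mv (hist (play mv) n) = respond (C (kk (sq (n / 2)))) (sq (n / 2)).1.2
          (hist (play mv) n) := by
        simp only [mv, hlen, hpar, if_false]
      rw [this]
      apply legal_respond
      intro h0
      rw [h0] at hlen
      simp at hlen
      omega
  have hfol : Follows 0 s (play mv) := by
    intro n hn
    rw [play_eq]
    simp only [mv, hist_length, hn, if_true]
  have hF : ∀ n, hist (play mv) (2 * n + 1) = F s C (sq n).1.1 := by
    intro n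
    induction n with
    | zero => rfl
    | succ n ih =>
      have e1 : play mv (2 * n + 1) = respond (C (kk (sq n))) (sq n).1.2
          (hist (play mv) (2 * n + 1)) := by
        rw [play_eq]
        have h1 : (hist (play mv) (2 * n + 1)).length = 2 * n + 1 := hist_length _ _
        have h2 : ¬ (2 * n + 1) % 2 = 0 := by omega
        have h3 : (2 * n + 1) / 2 = n := by omega
        simp only [mv, h1, h2, if_false, h3]
      have e2 : play mv (2 * n + 2) = s (hist (play mv) (2 * n + 2)) :=
        hfol (2 * n + 2) (by omega)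
      have e3 : hist (play mv) (2 * n + 2) =
          F s C (sq n).1.1 ++ [respond (C (kk (sq n))) (sq n).1.2 (F s C (sq n).1.1)] := by
        rw [show 2 * n + 2 = (2 * n + 1) + 1 from rfl, hist_succ, e1, ih]
      show hist (play mv) ((2 * n + 2) + 1) = _
      rw [hist_succ, e2, e3, hsq]
      rfl
  have hmem : x ∈ (⋂ n : ℕ, (play mv (n + 1)).cur) := by
    rw [mem_iInter]
    intro n
    rcases Nat.even_or_odd' n with ⟨m, hm | hm⟩
    · -- move `2 m + 1` of B
      rw [hm]
      have h1 : (hist (play mv) (2 * m + 1)).length = 2 * m + 1 := hist_length _ _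
      have h2 : ¬ (2 * m + 1) % 2 = 0 := by omega
      have h3 : (2 * m + 1) / 2 = m := by omega
      have e1 : play mv (2 * m + 1) = respond (C (kk (sq m))) (sq m).1.2
          (F s C (sq m).1.1) := by
        rw [← hF m, play_eq]
        simp only [mv, h1, h2, if_false, h3]
      rw [e1]
      exact (sq m).2
    · rw [hm]
      have e1 : lastM (hist (play mv) (2 * (m + 1) + 1)) = play mv (2 * m + 1 + 1) := by
        rw [hist_succ, lastM_append]
        rfl
      rw [← e1, hF]
      obtain ⟨h1, h2, h3, h4⟩ := F_legal hs C (sq (m + 1)).1.1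
      exact h3.pc_sub _ (sq (m + 1)).2
  rw [hwin _ hlegal hfol] at hmem
  exact hmem

/-- Player A has no winning strategy if some uncountable set of points is separated by countably
many sets. -/
theorem not_AWins_of (C : ℕ → Set E) (D : Set E) (hD : ¬ D.Countable)
    (hsep : ∀ x ∈ D, ∀ y ∈ D, x ≠ y → ∃ k, ¬ (x ∈ C k ↔ y ∈ C k)) : ¬ AWins E := by
  rintro ⟨s, hs, hwin⟩
  choose l b hl hb using given_up hs hwin C
  apply hD
  have hinj : InjOn (fun x => (l x, b x)) D := by
    intro x hx y hy hxy
    simp only [Prod.mk.injEq] at hxy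
    by_contra hne
    obtain ⟨k, hk⟩ := hsep x hx y hy hne
    have h1 := hl x
    have h2 := hl y
    have h3 := hb x k
    have h4 := hb y k
    rw [← hxy.1, ← hxy.2] at h2 h4
    -- the next move of A picks one of the two pieces
    obtain ⟨g1, g2, g3, g4⟩ := F_legal hs C (l x)
    have g5 := g1.append (legal_respond (C k) (b x) _ g4)
    have g6 : (F s C (l x) ++ [respond (C k) (b x) (F s C (l x))]).length % 2 = 0 := by
      rw [List.length_append]
      simp only [List.length_cons, List.length_nil]
      omega
    have g7 := hs _ g5 g6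
    rw [legalAfter_iff _ (by simp), lastM_append] at g7
    have g8 : lastM (F s C ((b x, k) :: l x)) =
        s (F s C (l x) ++ [respond (C k) (b x) (F s C (l x))]) := by
      show lastM (_ ++ [_]) = _
      rw [lastM_append]
    rw [g8] at h3 h4
    rcases g7.2 with g | g
    · rw [g] at h3 h4
      apply hk
      have h5 : x ∉ C k := fun h => h3 ⟨h1, h⟩
      have h6 : y ∉ C k := fun h => h4 ⟨h2, h⟩
      exact ⟨fun h => absurd h h5, fun h => absurd h h6⟩
    · rw [g] at h3 h4
      apply hk
      have h5 : x ∈ C k := by
        by_contra h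
        exact h3 ⟨h1, h⟩
      have h6 : y ∈ C k := by
        by_contra h
        exact h4 ⟨h2, h⟩
      exact ⟨fun _ => h6, fun _ => h5⟩
  exact Set.countable_of_injective_of_countable_image hinj (Set.to_countable _)

/-- Player A never has a winning strategy on an uncountable set. -/
theorem not_AWins (hE : Uncountable E) : ¬ AWins E := by
  have h1 : Cardinal.aleph 1 ≤ Cardinal.mk E := by
    rw [← Cardinal.aleph0_lt_mk_iff] at hE
    rw [← Cardinal.succ_aleph0]
    exact Order.succ_le_of_lt hE
  obtain ⟨D, hD⟩ := Cardinal.le_mk_iff_exists_set.1 h1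
  have h2 : Cardinal.mk D ≤ Cardinal.mk (ℕ → Bool) := by
    rw [hD]
    simp only [Cardinal.mk_pi, Cardinal.mk_fintype, Fintype.card_bool, Cardinal.prod_const,
      Cardinal.lift_id, Cardinal.mk_nat, Nat.cast_ofNat, Cardinal.two_power_aleph0]
    exact Cardinal.aleph_one_le_continuum
  obtain ⟨φ⟩ := Cardinal.le_def _ _ |>.1 h2
  apply not_AWins_of (fun k => {x | ∃ h : x ∈ D, φ ⟨x, h⟩ k = true}) D
  · intro hc
    have := Cardinal.le_aleph0_iff_set_countable.2 hc
    rw [hD] at this
    exact absurd Cardinal.aleph0_lt_aleph_one (not_lt.2 this)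
  · intro x hx y hy hne
    by_contra hcon
    push Not at hcon
    apply hne
    have : φ ⟨x, hx⟩ = φ ⟨y, hy⟩ := by
      funext k
      have := hcon k
      simp only [mem_ofPred_eq, hx, hy, exists_true_left] at this
      exact Bool.eq_iff_iff.2 this
    exact congrArg Subtype.val (φ.injective this)

end Q309.Split
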