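import Mathlib
import Pool.Agent.Q309.Split.PlayerA

/-!
Player B has no winning strategy in the set-splitting game on a set of at most continuum many
points, and winning strategies of B pass to larger sets.
-/

namespace Q309.Split

open Set Cardinal

/-- Distinct representatives for at most continuum many sets of size at least continuum. -/
theorem exists_sdr {J X : Type} (P : J → Set X) (hJ : #J ≤ continuum)
    (hP : ∀ j, continuum ≤ #(P j)) : ∃ c : J → X, Function.Injective c ∧ ∀ j, c j ∈ P j := by
  classical
  obtain ⟨r, hwo, hr⟩ := Cardinal.exists_ord_eq J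
  have wf := (IsWellFounded.wf (r := r))
  by_cases hX : Nonempty X
  · let c : J → X := wf.fix (fun j ih =>
      Classical.epsilon (fun x => x ∈ P j ∧ ∀ i (h : r i j), ih i h ≠ x))
    have hc : ∀ j, c j ∈ P j ∧ ∀ i, r i j → c i ≠ c j := by
      intro j
      have h1 : c j = Classical.epsilon (fun x => x ∈ P j ∧ ∀ i (_ : r i j), c i ≠ x) :=
        wf.fix_eq _ j
      have h2 : ∃ x, x ∈ P j ∧ ∀ i (_ : r i j), c i ≠ x := by
        by_contra hcon
        push Not at hcon
        have hsub : P j ⊆ range (fun i : {i // r i j} => c i.1) := by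
          intro x hx
          obtain ⟨i, hi, hix⟩ := hcon x hx
          exact ⟨⟨i, hi⟩, hix⟩
        have h3 : #(P j) ≤ #{i // r i j} := le_trans (mk_le_mk_of_subset hsub) mk_range_le
        have h4 : #{i // r i j} < #J := by
          have := Cardinal.card_typein_lt (r := r) j hr
          rwa [Ordinal.card_typein] at this
        exact absurd (lt_of_le_of_lt ((hP j).trans h3) h4) (not_lt.2 hJ)
      have h5 := Classical.epsilon_spec h2
      rw [← h1] at h5
      exact h5
    refine ⟨c, ?_, fun j => (hc j).1⟩
    intro i j hij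
    rcases trichotomous_of r i j with h | h | h
    · exact absurd hij ((hc j).2 i h)
    · exact h
    · exact absurd hij.symm ((hc i).2 j h)
  · by_cases hJ' : Nonempty J
    · obtain ⟨j⟩ := hJ'
      have h1 := hP j
      have : IsEmpty (P j) := ⟨fun x => hX ⟨x.1⟩⟩
      rw [mk_eq_zero] at h1
      exact absurd (lt_of_lt_of_le (lt_of_lt_of_le aleph0_pos aleph0_le_continuum) h1)
        (lt_irrefl _)
    · have : IsEmpty J := not_nonempty_iff.1 hJ'
      exact ⟨fun j => isEmptyElim j, fun j => isEmptyElim j, fun j => isEmptyElim j⟩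

theorem mk_cantor : #(ℕ → Bool) = continuum := by
  simp only [Cardinal.mk_pi, Cardinal.mk_fintype, Fintype.card_bool, Cardinal.prod_const,
    Cardinal.lift_id, Cardinal.mk_nat, Nat.cast_ofNat, Cardinal.two_power_aleph0]

/-- A set of at most continuum many points embeds into the Cantor space so that the range contains
no continuous injective image of the Cantor space. -/
theorem exists_bernstein {E : Type} (hE : #E ≤ continuum) :
    ∃ f : E → (ℕ → Bool), Function.Injective f ∧
      ∀ g : (ℕ → Bool) → (ℕ → Bool), Continuous g → Function.Injective g → ¬ range g ⊆ range f := by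
  let K := {g : (ℕ → Bool) → (ℕ → Bool) // Continuous g ∧ Function.Injective g}
  have hK : #K ≤ continuum := by
    obtain ⟨D, hD, hdense⟩ := TopologicalSpace.exists_countable_dense (ℕ → Bool)
    have hinj : Function.Injective (fun (g : K) (x : D) => g.1 x.1) := by
      intro g g' h
      apply Subtype.ext
      apply Continuous.ext_on hdense g.2.1 g'.2.1
      intro x hx
      exact congrFun h ⟨x, hx⟩
    refine (Cardinal.mk_le_of_injective hinj).trans ?_
    have : #(D → (ℕ → Bool)) = continuum ^ #D := by
      rw [← mk_cantor]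
      rfl
    rw [this]
    calc (continuum : Cardinal.{0}) ^ #D ≤ continuum ^ (ℵ₀ : Cardinal.{0}) :=
          Cardinal.power_le_power_left (by exact (lt_of_lt_of_le aleph0_pos
            aleph0_le_continuum).ne') (le_aleph0_iff_set_countable.2 hD)
      _ = continuum := continuum_power_aleph0
  obtain ⟨c, hc, hcP⟩ := exists_sdr (J := K ⊕ E) (X := ℕ → Bool)
    (fun j => match j with
      | Sum.inl g => range g.1
      | Sum.inr _ => univ)
    (by
      rw [mk_sum, lift_id, lift_id]
      exact le_trans (add_le_add hK hE) (by rw [continuum_add_self]))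
    (by
      rintro (g | e)
      · show continuum ≤ #(range g.1)
        rw [mk_range_eq _ g.2.2, mk_cantor]
      · show continuum ≤ #(univ : Set (ℕ → Bool))
        rw [mk_univ, mk_cantor])
  refine ⟨fun e => c (Sum.inr e), fun e e' h => Sum.inr_injective (hc h), ?_⟩
  intro g hg1 hg2 hsub
  have h1 : c (Sum.inl ⟨g, hg1, hg2⟩) ∈ range g := hcP (Sum.inl ⟨g, hg1, hg2⟩)
  obtain ⟨e, he⟩ := hsub h1
  exact absurd (hc he) (by simp)

variable {E : Type}

/-- Player B has no winning strategy on a set of at most continuum many points. -/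
theorem not_BWins (hE : #E ≤ continuum) : ¬ BWins E := by
  rintro ⟨s, hs, hwin⟩
  obtain ⟨f, hf, hbern⟩ := exists_bernstein hE
  let Dg : ℕ → Set E := fun n => {x | f x n = true}
  -- A splits by the digits of `f` and picks the pieces according to `a`
  let mv : (ℕ → Bool) → List (Move E) → Move E := fun a h =>
    if h.length % 2 = 1 then s h
    else if h.length = 0 then ⟨univ, Dg 0, (Dg 0)ᶜ⟩
    else respond (Dg (h.length / 2)) (a (h.length / 2 - 1)) h
  have hodd : ∀ a n, n % 2 = 1 → play (mv a) n = s (hist (play (mv a)) n) := by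
    intro a n hn
    rw [play_eq]
    simp only [mv, hist_length, hn, if_true]
  have heven : ∀ a m, play (mv a) (2 * (m + 1)) =
      respond (Dg (m + 1)) (a m) (hist (play (mv a)) (2 * (m + 1))) := by
    intro a m
    rw [play_eq]
    have h1 : ¬ (2 * (m + 1)) % 2 = 1 := by omega
    have h2 : ¬ 2 * (m + 1) = 0 := by omega
    have h3 : 2 * (m + 1) / 2 = m + 1 := by omega
    simp only [mv, hist_length, h1, if_false, h2, h3, Nat.add_sub_cancel]
  have hzero : ∀ a, play (mv a) 0 = ⟨univ, Dg 0, (Dg 0)ᶜ⟩ := by
    intro a
    rw [play_eq]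
    rfl
  have hlegal : ∀ a, LegalPlay (play (mv a)) := by
    intro a
    apply legalPlay_of
    intro n hn
    by_cases hpar : n % 2 = 1
    · rw [hodd a n hpar]
      exact hs _ hn (by rw [hist_length]; exact hpar)
    · rcases Nat.eq_zero_or_pos n with h0 | h0
      · subst h0
        rw [legalAfter_zero, hzero]
        exact ⟨⟨disjoint_compl_right, union_compl_self _⟩, rfl⟩
      · obtain ⟨m, hm⟩ : ∃ m, n = 2 * (m + 1) := ⟨n / 2 - 1, by omega⟩
        subst hm
        rw [heven]
        apply legal_respond
        intro h
        have := hist_length (play (mv a)) (2 * (m + 1))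
        rw [h] at this
        simp at this
  have hfol : ∀ a, Follows 1 s (play (mv a)) := fun a n hn => hodd a n hn
  have hne : ∀ a, ∃ y : E, ∀ n, y ∈ (play (mv a) (n + 1)).cur := by
    intro a
    obtain ⟨y, hy⟩ := hwin _ (hlegal a) (hfol a)
    exact ⟨y, fun n => mem_iInter.1 hy n⟩
  choose y hy using hne
  -- agreement of plays
  have hagree : ∀ a a' : ℕ → Bool, ∀ m, (∀ i < m, a i = a' i) →
      hist (play (mv a)) (2 * m + 1) = hist (play (mv a')) (2 * m + 1) := by
    intro a a' m
    induction m with
    | zero =>
      intro _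
      show hist (play (mv a)) (0 + 1) = hist (play (mv a')) (0 + 1)
      rw [hist_succ, hist_succ, hzero, hzero]
      rfl
    | succ m ih =>
      intro h
      have h1 := ih (fun i hi => h i (Nat.lt_succ_of_lt hi))
      have h2 : hist (play (mv a)) (2 * (m + 1)) = hist (play (mv a')) (2 * (m + 1)) := by
        show hist (play (mv a)) ((2 * m + 1) + 1) = hist (play (mv a')) ((2 * m + 1) + 1)
        rw [hist_succ (play (mv a)) (2 * m + 1), hist_succ (play (mv a')) (2 * m + 1),
          hodd a (2 * m + 1) (by omega), hodd a' (2 * m + 1) (by omega), h1]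
      rw [hist_succ (play (mv a)) (2 * (m + 1)), hist_succ (play (mv a')) (2 * (m + 1)),
        heven, heven, h2, h m (Nat.lt_succ_self m)]
  have hagree2 : ∀ a a' : ℕ → Bool, ∀ m, (∀ i < m, a i = a' i) →
      play (mv a) (2 * m) = play (mv a') (2 * m) ∧
      play (mv a) (2 * m + 1) = play (mv a') (2 * m + 1) := by
    intro a a' m h
    have h1 := hagree a a' m h
    constructor
    · have h2 := h1
      rw [hist_succ, hist_succ] at h2
      have := List.append_inj' h2 (by simp)
      simpa using this.2
    · rw [hodd a _ (by omega), hodd a' _ (by omega), h1]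
  -- the pieces of the moves of A
  have hpieces : ∀ a m, ∃ X : Set E, (play (mv a) (2 * m)).left = X ∩ Dg m ∧
      (play (mv a) (2 * m)).right = X \ Dg m := by
    intro a m
    rcases Nat.eq_zero_or_pos m with h0 | h0
    · subst h0
      refine ⟨univ, ?_, ?_⟩
      · show (play (mv a) 0).left = _
        rw [hzero, univ_inter]
      · show (play (mv a) 0).right = _
        rw [hzero, ← compl_eq_univ_sdiff]
    · obtain ⟨k, rfl⟩ : ∃ k, m = k + 1 := ⟨m - 1, by omega⟩
      rw [heven]
      exact ⟨_, rfl, rfl⟩
  have hcurB : ∀ a m, (play (mv a) (2 * m + 1)).cur = (play (mv a) (2 * m)).left ∨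
      (play (mv a) (2 * m + 1)).cur = (play (mv a) (2 * m)).right := by
    intro a m
    have := (legalAfter_succ (play (mv a)) (2 * m) (play (mv a) (2 * m + 1))).1
      (hlegal a (2 * m + 1))
    exact this.2
  have hdigit : ∀ a a' : ℕ → Bool, ∀ m, (∀ i < m, a i = a' i) →
      f (y a) m = f (y a') m := by
    intro a a' m h
    obtain ⟨h1, h2⟩ := hagree2 a a' m h
    have h3 := hy a (2 * m)
    have h4 := hy a' (2 * m)
    rw [← h2] at h4
    obtain ⟨X, hX1, hX2⟩ := hpieces a m
    rcases hcurB a m with h5 | h5
    · rw [h5, hX1] at h3 h4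
      exact h3.2.trans h4.2.symm
    · rw [h5, hX2] at h3 h4
      have h6 : f (y a) m = false := by
        have := h3.2
        simpa [Dg] using this
      have h7 : f (y a') m = false := by
        have := h4.2
        simpa [Dg] using this
      rw [h6, h7]
  have hyinj : Function.Injective y := by
    intro a a' h
    by_contra hne
    have hex : ∃ i, a i ≠ a' i := by
      by_contra hcon
      push Not at hcon
      exact hne (funext hcon)
    classical
    let m := Nat.find hex
    have hm : a m ≠ a' m := Nat.find_spec hex
    have hlt : ∀ i < m, a i = a' i := by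
      intro i hi
      have := Nat.find_min hex hi
      push Not at this
      exact this
    obtain ⟨h1, h2⟩ := hagree2 a a' m hlt
    have e1 := hy a (2 * m + 1)
    have e2 := hy a' (2 * m + 1)
    have e3 : (play (mv a) (2 * m + 1 + 1)) = respond (Dg (m + 1)) (a m)
      (hist (play (mv a)) (2 * (m + 1))) := heven a m
    have e4 : (play (mv a') (2 * m + 1 + 1)) = respond (Dg (m + 1)) (a' m)
      (hist (play (mv a')) (2 * (m + 1))) := heven a' m
    have l1 : lastM (hist (play (mv a)) (2 * (m + 1))) = play (mv a) (2 * m + 1) := by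
      show lastM (hist (play (mv a)) ((2 * m + 1) + 1)) = _
      rw [hist_succ, lastM_append]
    have l2 : lastM (hist (play (mv a')) (2 * (m + 1))) = play (mv a) (2 * m + 1) := by
      show lastM (hist (play (mv a')) ((2 * m + 1) + 1)) = _
      rw [hist_succ, lastM_append, h2]
    rw [e3] at e1
    rw [e4, ← h] at e2
    have e1' : y a ∈ pc (a m) (play (mv a) (2 * m + 1)) := by
      rw [← l1]; exact e1
    have e2' : y a ∈ pc (a' m) (play (mv a) (2 * m + 1)) := by
      rw [← l2]; exact e2
    have hd : Disjoint (play (mv a) (2 * m + 1)).left (play (mv a) (2 * m + 1)).right :=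
      ((legalAfter_succ (play (mv a)) (2 * m) (play (mv a) (2 * m + 1))).1
      (hlegal a (2 * m + 1))).1.1
    cases ha : a m <;> cases ha' : a' m
    · exact hm (ha.trans ha'.symm)
    · rw [ha] at e1'
      rw [ha'] at e2'
      exact Set.disjoint_left.1 hd e2' e1'
    · rw [ha] at e1'
      rw [ha'] at e2'
      exact Set.disjoint_left.1 hd e1' e2'
    · exact hm (ha.trans ha'.symm)
  refine hbern (fun a => f (y a)) ?_ (hf.comp hyinj) ?_
  · apply continuous_pi
    intro m
    rw [continuous_discrete_rng]
    intro v
    rw [isOpen_pi_iff]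
    intro a ha
    refine ⟨Finset.range m, fun i => {a i}, fun i _ => ⟨isOpen_discrete _, mem_singleton _⟩, ?_⟩
    intro a' ha'
    show f (y a') m = v
    have h1 : f (y a) m = v := ha
    rw [← h1]
    apply hdigit
    intro i hi
    have := ha' i (Finset.coe_range m ▸ hi)
    exact this
  · rintro _ ⟨a, rfl⟩
    exact ⟨y a, rfl⟩

end Q309.Split
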