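import Mathlib
import Pool.Agent.Q309.Split.PlayerB

/-!
A winning strategy of player B on `E` gives one on every set of larger cardinality.
-/

namespace Q309.Split

open Set Cardinal

variable {E E' : Type}

/-- the trace of a move on `E` -/
def pull (φ : E → E') (m : Move E') : Move E := ⟨φ ⁻¹' m.cur, φ ⁻¹' m.left, φ ⁻¹' m.right⟩

theorem pull_splits (φ : E → E') {m : Move E'} (h : m.Splits) : (pull φ m).Splits := by
  refine ⟨h.1.preimage φ, ?_⟩
  show φ ⁻¹' m.left ∪ φ ⁻¹' m.right = φ ⁻¹' m.cur
  rw [← preimage_union, h.2]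

theorem pull_legalAfter (φ : E → E') (h : List (Move E')) (m : Move E') (hm : LegalAfter h m) :
    LegalAfter (h.map (pull φ)) (pull φ m) := by
  obtain ⟨h1, h2⟩ := hm
  refine ⟨pull_splits φ h1, ?_⟩
  rw [List.getLast?_map]
  cases hl : h.getLast? with
  | none =>
    rw [hl] at h2
    show φ ⁻¹' m.cur = Set.univ
    rw [h2, preimage_univ]
  | some m0 =>
    rw [hl] at h2
    show φ ⁻¹' m.cur = φ ⁻¹' m0.left ∨ φ ⁻¹' m.cur = φ ⁻¹' m0.right
    rcases h2 with h2 | h2
    · left; rw [h2]
    · right; rw [h2]

theorem pull_legalHist (φ : E → E') (h : List (Move E')) (hh : LegalHist h) :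
    LegalHist (h.map (pull φ)) := by
  intro l m hl
  obtain ⟨t, ht⟩ := hl
  have h1 : ∃ l' m' t', h = l' ++ [m'] ++ t' ∧ l'.map (pull φ) = l ∧ pull φ m' = m := by
    obtain ⟨a, t', h2, h3, -⟩ := List.map_eq_append_iff.1 ht.symm
    obtain ⟨l', b, h4, h5, h6⟩ := List.map_eq_append_iff.1 h3
    rw [List.map_eq_singleton_iff] at h6
    obtain ⟨m', h7, h8⟩ := h6
    exact ⟨l', m', t', by rw [h2, h4, h7], h5, h8⟩
  obtain ⟨l', m', t', h2, h3, h4⟩ := h1
  rw [← h3, ← h4]
  exact pull_legalAfter φ _ _ (hh l' m' ⟨t', h2.symm⟩)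

theorem hist_map (φ : E → E') (p : ℕ → Move E') (n : ℕ) :
    hist (fun k => pull φ (p k)) n = (hist p n).map (pull φ) := by
  simp [hist, Function.comp_def]

/-- Winning strategies of player B pass to larger sets. -/
theorem BWins.mono (hEE : #E ≤ #E') (h : BWins E) : BWins E' := by
  classical
  obtain ⟨φ⟩ := Cardinal.le_def _ _ |>.1 hEE
  obtain ⟨s, hs, hwin⟩ := h
  -- the lifted move
  let cur' : List (Move E') → Set E' := fun h =>
    if (s (h.map (pull φ))).cur = φ ⁻¹' (lastM h).left then (lastM h).left else (lastM h).right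
  let s' : List (Move E') → Move E' := fun h =>
    ⟨cur' h, φ '' (s (h.map (pull φ))).left, cur' h \ φ '' (s (h.map (pull φ))).left⟩
  have hkey : ∀ h : List (Move E'), h ≠ [] → LegalAfter (h.map (pull φ)) (s (h.map (pull φ))) →
      LegalAfter h (s' h) ∧ pull φ (s' h) = s (h.map (pull φ)) := by
    intro h hne hl
    obtain ⟨h1, h2⟩ := hl
    have hlast : h.getLast? = some (lastM h) := by
      unfold lastM
      rw [List.getLast?_eq_some_getLast hne]
      rfl
    rw [List.getLast?_map, hlast] at h2
    have h2' : (s (h.map (pull φ))).cur = φ ⁻¹' (lastM h).left ∨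
        (s (h.map (pull φ))).cur = φ ⁻¹' (lastM h).right := h2
    have hcur : (s (h.map (pull φ))).cur = φ ⁻¹' (cur' h) := by
      by_cases hc : (s (h.map (pull φ))).cur = φ ⁻¹' (lastM h).left
      · have : cur' h = (lastM h).left := if_pos hc
        rw [this]; exact hc
      · have : cur' h = (lastM h).right := if_neg hc
        rw [this]
        exact h2'.resolve_left hc
    have hsub : φ '' (s (h.map (pull φ))).left ⊆ cur' h := by
      rintro _ ⟨x, hx, rfl⟩
      have : x ∈ (s (h.map (pull φ))).cur := by
        rw [← h1.2]; exact Or.inl hx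
      rw [hcur] at this
      exact this
    refine ⟨?_, ?_⟩
    · rw [legalAfter_iff h hne]
      refine ⟨⟨disjoint_sdiff_right, union_sdiff_cancel hsub⟩, ?_⟩
      show cur' h = _ ∨ cur' h = _
      by_cases hc : (s (h.map (pull φ))).cur = φ ⁻¹' (lastM h).left
      · left; exact if_pos hc
      · right; exact if_neg hc
    · have e1 : (pull φ (s' h)).cur = (s (h.map (pull φ))).cur := hcur.symm
      have e2 : (pull φ (s' h)).left = (s (h.map (pull φ))).left :=
        preimage_image_eq _ φ.injective
      have e3 : (pull φ (s' h)).right = (s (h.map (pull φ))).right := by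
        show φ ⁻¹' (cur' h \ φ '' (s (h.map (pull φ))).left) = _
        rw [preimage_sdiff, preimage_image_eq _ φ.injective, ← hcur, ← h1.2]
        exact union_sdiff_cancel_left (Set.disjoint_iff.1 h1.1)
      cases h5 : pull φ (s' h)
      cases h6 : s (h.map (pull φ))
      rw [h5, h6] at e1 e2 e3
      simp only at e1 e2 e3
      rw [e1, e2, e3]
  refine ⟨s', ?_, ?_⟩
  · intro h hh hlen
    have hne : h ≠ [] := by
      rintro rfl
      simp at hlen
    exact (hkey h hne (hs _ (pull_legalHist φ h hh) (by rw [List.length_map]; exact hlen))).1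
  · intro p hp hfol
    have hhist : ∀ n, LegalHist (hist p n) := fun n => legalHist_hist p n (fun k _ => hp k)
    obtain ⟨x, hx⟩ := hwin (fun k => pull φ (p k))
      (by
        intro n
        rw [hist_map]
        exact pull_legalAfter φ _ _ (hp n))
      (by
        intro n hn
        rw [hist_map]
        have hne : hist p n ≠ [] := by
          intro h0
          have := hist_length p n
          rw [h0] at this
          simp at this
          omega
        have h1 := hkey (hist p n) hne (hs _ (pull_legalHist φ _ (hhist n))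
          (by rw [List.length_map, hist_length]; exact hn))
        show pull φ (p n) = _
        rw [hfol n hn]
        exact h1.2)
    exact ⟨φ x, mem_iInter.2 (fun n => mem_iInter.1 hx n)⟩

end Q309.Split
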