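import Mathlib
import Pool.Agent.Q309.Split.Mono

/-!
A sufficient condition for a winning strategy of player B.
-/

namespace Q309.Split

open Set Cardinal

variable {E : Type}

/-- A family of subsets of `E` in which player B can stay: it is nonempty, each member contains two
disjoint members, for every splitting of a member one of the pieces contains a member, and
decreasing sequences of members have nonempty intersection. -/
structure Durable (D : Set (Set E)) : Prop where
  /-- there is a member -/
  nonempty : D.Nonempty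
  /-- each member contains two disjoint members -/
  split : ∀ d ∈ D, ∃ e ∈ D, ∃ e' ∈ D, e ⊆ d ∧ e' ⊆ d ∧ Disjoint e e'
  /-- one of the two pieces of a member contains a member -/
  choose : ∀ d ∈ D, ∀ Y : Set E, ∃ e ∈ D, e ⊆ d ∩ Y ∨ e ⊆ d \ Y
  /-- decreasing sequences of members have nonempty intersection -/
  closed : ∀ d : ℕ → Set E, (∀ n, d n ∈ D) → (∀ n, d (n + 1) ⊆ d n) → (⋂ n, d n).Nonempty

theorem Durable.ne {D : Set (Set E)} (h : Durable D) {d : Set E} (hd : d ∈ D) : d.Nonempty := by
  obtain ⟨x, hx⟩ := h.closed (fun _ => d) (fun _ => hd) (fun _ => Subset.rfl)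
  exact ⟨x, mem_iInter.1 hx 0⟩

theorem Durable.bwins {D : Set (Set E)} (hD : Durable D) : BWins E := by
  classical
  obtain ⟨d0, hd0⟩ := hD.nonempty
  -- the answer of B to the move `m` of A, when `d` is the current member
  have hans : ∀ (d : Set E) (m : Move E), ∃ (c : Bool) (e e' : Set E), d ∈ D → m.Splits →
      d ⊆ m.cur → e ∈ D ∧ e' ∈ D ∧ e ⊆ d ∧ e' ⊆ d ∧ Disjoint e e' ∧ e ⊆ pc c m ∧ e' ⊆ pc c m := by
    intro d m
    by_cases h : d ∈ D ∧ m.Splits ∧ d ⊆ m.cur
    · obtain ⟨h1, h2, h3⟩ := h
      obtain ⟨g, hg, hg'⟩ := hD.choose d h1 m.left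
      obtain ⟨e, he, e', he', h4, h5, h6⟩ := hD.split g hg
      rcases hg' with hg' | hg'
      · refine ⟨true, e, e', fun _ _ _ => ⟨he, he', ?_, ?_, h6, ?_, ?_⟩⟩
        · exact fun x hx => (hg' (h4 hx)).1
        · exact fun x hx => (hg' (h5 hx)).1
        · exact fun x hx => (hg' (h4 hx)).2
        · exact fun x hx => (hg' (h5 hx)).2
      · have hr : ∀ x ∈ g, x ∈ m.right := by
          intro x hx
          have h7 := h3 (hg' hx).1
          rw [← h2.2] at h7
          exact h7.resolve_left (hg' hx).2
        refine ⟨false, e, e', fun _ _ _ => ⟨he, he', ?_, ?_, h6, ?_, ?_⟩⟩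
        · exact fun x hx => (hg' (h4 hx)).1
        · exact fun x hx => (hg' (h5 hx)).1
        · exact fun x hx => hr x (h4 hx)
        · exact fun x hx => hr x (h5 hx)
    · refine ⟨true, ∅, ∅, fun h1 h2 h3 => absurd ⟨h1, h2, h3⟩ h⟩
  choose c e e' hans using hans
  let dsq : (ℕ → Move E) → ℕ → Set E := fun m n => Nat.rec d0
    (fun i d => if (m (i + 1)).cur = e d (m i) then e d (m i) else e' d (m i)) n
  have hdsq : ∀ m i, dsq m (i + 1) = if (m (i + 1)).cur = e (dsq m i) (m i) then
      e (dsq m i) (m i) else e' (dsq m i) (m i) := fun m i => rfl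
  have hcongr : ∀ (m m' : ℕ → Move E) (i : ℕ), (∀ j ≤ i, m j = m' j) → dsq m i = dsq m' i := by
    intro m m' i
    induction i with
    | zero => intro _; rfl
    | succ i ih =>
      intro h
      rw [hdsq, hdsq, ih (fun j hj => h j (Nat.le_succ_of_le hj)), h (i + 1) le_rfl,
        h i (Nat.le_succ i)]
  let am : List (Move E) → ℕ → Move E := fun h i => (h[2 * i]?).getD ⟨Set.univ, ∅, ∅⟩
  let beta : Set E → Move E → Move E := fun d m => ⟨pc (c d m) m, e d m ∩ pc (c d m) m,
    pc (c d m) m \ e d m⟩
  let s : List (Move E) → Move E := fun h =>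
    beta (dsq (am h) (h.length / 2)) (am h (h.length / 2))
  have hlast : ∀ h : List (Move E), h.length % 2 = 1 → am h (h.length / 2) = lastM h := by
    intro h hh
    show (h[2 * (h.length / 2)]?).getD _ = _
    have h1 : 2 * (h.length / 2) = h.length - 1 := by omega
    rw [h1]
    unfold lastM
    rw [List.getLast?_eq_getElem?]
  refine ⟨s, ?_, ?_⟩
  · intro h hh hlen
    have hne : h ≠ [] := by
      rintro rfl
      simp at hlen
    rw [legalAfter_iff h hne]
    show (beta (dsq (am h) (h.length / 2)) (am h (h.length / 2))).Splits ∧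
      ((beta (dsq (am h) (h.length / 2)) (am h (h.length / 2))).cur = _ ∨
      (beta (dsq (am h) (h.length / 2)) (am h (h.length / 2))).cur = _)
    rw [hlast h hlen]
    refine ⟨⟨?_, ?_⟩, pc_or _ _⟩
    · rw [Set.disjoint_left]
      rintro x ⟨h1, _⟩ ⟨_, h2⟩
      exact h2 h1
    · ext x
      simp only [beta, mem_union, mem_inter_iff, mem_sdiff]
      tauto
  · intro p hp hfol
    let m : ℕ → Move E := fun i => p (2 * i)
    have ham : ∀ k i, i ≤ k → am (hist p (2 * k + 1)) i = m i := by
      intro k i hi
      show ((hist p (2 * k + 1))[2 * i]?).getD _ = _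
      have : (hist p (2 * k + 1))[2 * i]? = some (p (2 * i)) := by
        unfold hist
        rw [List.getElem?_map, List.getElem?_range (by omega)]
        rfl
      rw [this]
      rfl
    have hB : ∀ k, p (2 * k + 1) = beta (dsq m k) (m k) := by
      intro k
      rw [hfol (2 * k + 1) (by omega)]
      show beta (dsq (am (hist p (2 * k + 1))) ((hist p (2 * k + 1)).length / 2))
        (am (hist p (2 * k + 1)) ((hist p (2 * k + 1)).length / 2)) = _
      rw [hist_length, show (2 * k + 1) / 2 = k from by omega, ham k k le_rfl,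
        hcongr _ m k (fun j hj => ham k j hj)]
    have hspl : ∀ n, (p n).Splits := fun n => (hp n).1
    have hinv : ∀ k, dsq m k ∈ D ∧ dsq m k ⊆ (m k).cur := by
      intro k
      induction k with
      | zero =>
        refine ⟨hd0, ?_⟩
        have h1 := hp 0
        rw [legalAfter_zero] at h1
        show d0 ⊆ (p 0).cur
        rw [h1.2]
        exact subset_univ _
      | succ k ih =>
        obtain ⟨ih1, ih2⟩ := ih
        obtain ⟨g1, g2, g3, g4, g5, g6, g7⟩ := hans (dsq m k) (m k) ih1 (hspl _) ih2
        have h1 := (legalAfter_succ p (2 * k + 1) (p (2 * k + 2))).1 (hp (2 * k + 2))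
        have hleft : (p (2 * k + 1)).left = e (dsq m k) (m k) := by
          rw [hB k]
          exact inter_eq_left.2 g6
        have hright : (p (2 * k + 1)).right = pc (c (dsq m k) (m k)) (m k) \
            e (dsq m k) (m k) := by
          rw [hB k]
        have hcur : (m (k + 1)).cur = (p (2 * k + 2)).cur := rfl
        rw [hdsq]
        by_cases hc : (m (k + 1)).cur = e (dsq m k) (m k)
        · rw [if_pos hc]
          exact ⟨g1, hc.symm.subset⟩
        · rw [if_neg hc]
          refine ⟨g2, ?_⟩
          rcases h1.2 with h2 | h2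
          · rw [hleft] at h2
            exact absurd (hcur.trans h2) hc
          · rw [hright] at h2
            rw [hcur, h2]
            intro x hx
            exact ⟨g7 hx, fun h3 => Set.disjoint_left.1 g5 h3 hx⟩
    have hdec : ∀ k, dsq m (k + 1) ⊆ dsq m k ∧ dsq m (k + 1) ⊆ (p (2 * k + 1)).cur := by
      intro k
      obtain ⟨ih1, ih2⟩ := hinv k
      obtain ⟨g1, g2, g3, g4, g5, g6, g7⟩ := hans (dsq m k) (m k) ih1 (hspl _) ih2
      rw [hdsq]
      by_cases hc : (m (k + 1)).cur = e (dsq m k) (m k)
      · rw [if_pos hc]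
        exact ⟨g3, by rw [hB k]; exact g6⟩
      · rw [if_neg hc]
        exact ⟨g4, by rw [hB k]; exact g7⟩
    obtain ⟨x, hx⟩ := hD.closed (dsq m) (fun k => (hinv k).1) (fun k => (hdec k).1)
    rw [mem_iInter] at hx
    refine ⟨x, mem_iInter.2 (fun n => ?_)⟩
    rcases Nat.even_or_odd' n with ⟨k, hk | hk⟩
    · rw [hk]
      exact (hdec k).2 (hx (k + 1))
    · rw [hk]
      exact (hinv (k + 1)).2 (hx (k + 1))

end Q309.Split
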